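import Mathlib

/-!
# Squad AT10, row IXP: powers and the index
-/

set_option autoImplicit false

namespace Pool.Agent.PP.T10.H53

theorem ixp0 (ℓ : ℕ) [Fact ℓ.Prime] (G : Type) [Group G] [Finite G]
    (A H : Subgroup G) (p : ℕ) (hA : IsPGroup ℓ A) (hHA : H ≤ A)
    (hc : Nat.card A ≤ ℓ ^ p * Nat.card H) (y : G) (hy : y ∈ A) : y ^ ℓ ^ p ∈ H := by
  have hℓ : ℓ.Prime := Fact.out
  have hH0 : 0 < Nat.card H := Nat.card_pos
  have h1 : H.relIndex A * Nat.card H = Nat.card A := by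
    have := Subgroup.relIndex_mul_relIndex ⊥ H A bot_le hHA
    rw [Subgroup.relIndex_bot_left, Subgroup.relIndex_bot_left] at this
    rw [mul_comm]
    exact this
  have h2 : H.relIndex A ≤ ℓ ^ p := by
    rw [← h1] at hc
    exact Nat.le_of_mul_le_mul_right hc hH0
  have h3 : H.relIndex A ≠ 0 := by
    intro h0
    rw [h0, zero_mul] at h1
    have : 0 < Nat.card A := Nat.card_pos
    omega
  obtain ⟨n, hn0, hn1, hn2⟩ := Subgroup.exists_pow_mem_of_relIndex_ne_zero h3 hy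
  obtain ⟨j, hj⟩ := hA ⟨y, hy⟩
  have hj' : y ^ ℓ ^ j = 1 := by
    have := congrArg (Subtype.val) hj
    simpa using this
  obtain ⟨k, hk, hk2⟩ := (Nat.dvd_prime_pow hℓ).1 (Nat.gcd_dvd_right n (ℓ ^ j))
  have hkp : k ≤ p := by
    have h4 : ℓ ^ k ∣ n := hk2 ▸ Nat.gcd_dvd_left n (ℓ ^ j)
    have h5 : ℓ ^ k ≤ ℓ ^ p := (Nat.le_of_dvd hn0 h4).trans (hn1.trans h2)
    exact (Nat.pow_le_pow_iff_right hℓ.one_lt).1 h5
  have h6 : y ^ ℓ ^ k ∈ H := by
    have h7 : y ^ ((ℓ ^ k : ℕ) : ℤ) ∈ H := by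
      rw [← hk2, Nat.gcd_eq_gcd_ab, zpow_add, zpow_mul, zpow_mul]
      refine H.mul_mem (H.zpow_mem ?_ _) (H.zpow_mem ?_ _)
      · rw [zpow_natCast]
        exact hn2.1
      · rw [zpow_natCast, hj']
        exact H.one_mem
    rwa [zpow_natCast] at h7
  have h8 : y ^ ℓ ^ p = (y ^ ℓ ^ k) ^ ℓ ^ (p - k) := by
    rw [← pow_mul, ← pow_add, Nat.add_sub_cancel' hkp]
  rw [h8]
  exact H.pow_mem h6 _

end Pool.Agent.PP.T10.H53
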