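import Pool.Agent.AT10.Stmts3
import Pool.Agent.Helper53_AT10.IXP0

/-!
# Squad AT10, row IXP: powers and the index
-/

set_option autoImplicit false

namespace Pool.Agent.PP.T10.H53

theorem ixp : IxpStmt := by
  intro ℓ _ G _ _ A H p hA hHA hc y hy
  exact ixp0 ℓ G A H p hA hHA hc y hy

end Pool.Agent.PP.T10.H53
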